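import Pool.Agent.W150.CB.Step1

/-!
# CB-STEP: one step of the chain of scales
-/

set_option autoImplicit false
set_option linter.unusedSectionVars false

open MeasureTheory
open scoped ENNReal

namespace Pool.Agent.W150.CB

open Pool.Agent.W761.CB

theorem proof_step : S_STEP := by
  intro X _ ν _ I I' _ _ en u u' h ω M M' g a b δ e N Nhi E R' B' A _ L c
    hum hu0 hus hui hum' hu0' hu1' hui' hw hh hs hω hg ha hb hδ he hN hNhi hE hR' hB' hdia hlow
    hins hen hold
  obtain ⟨A', hA', Φ', c', hE'⟩ := hold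
  have hu1 : ∀ i x, u i x ≤ 1 := fun i x => by
    rw [← hus x]
    exact Finset.single_le_sum (f := fun j => u j x) (fun j _ => hu0 j x) (Finset.mem_univ i)
  have hbd' : ∀ i', ∃ C : ℝ, ∀ x, |u' i' x| ≤ C := fun i' =>
    ⟨1, fun x => by rw [abs_of_nonneg (hu0' i' x)]; exact hu1' i' x⟩
  have hEB : ∀ k : A' × A, EB (L k.2 (Φ' k.1)) := fun k => hins.eb _ (hE'.eb k.1) k.2
  -- norm
  have hnorm : ∑' k : A' × A, nE ν (L k.2 (Φ' k.1)) = 1 := by
    rw [ENNReal.tsum_prod (f := fun β α => nE ν (L α (Φ' β)))]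
    rw [← hE'.norm]
    exact tsum_congr fun β => hins.norm _ (hE'.eb β)
  -- particle number
  have hnm : ∀ (F : Multiset X → ℂ), EB F → Measurable (fun x => nE ν (an x F)) := fun F hF =>
    (ebc X ν F F hF hF).2.2.2.2.2.2.2.2.1
  have hnlo : ENNReal.ofReal N ≤ ∑' k : A' × A, nuE ν (L k.2 (Φ' k.1)) := by
    refine hE'.nlo.trans ?_
    rw [ENNReal.tsum_prod (f := fun β α => nuE ν (L α (Φ' β)))]
    refine ENNReal.tsum_le_tsum fun β => ?_
    unfold nuE
    rw [← lintegral_tsum fun α => (hnm _ (hins.eb _ (hE'.eb β) α)).aemeasurable]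
    exact lintegral_mono fun x => hins.nlo _ (hE'.eb β) x
  have hnhi : ∑' k : A' × A, nuE ν (L k.2 (Φ' k.1)) ≤
      ENNReal.ofReal (Nhi + ω * (ν Set.univ).toReal) := by
    rw [ENNReal.tsum_prod (f := fun β α => nuE ν (L α (Φ' β)))]
    have h1 : ∀ β, ∑' α, nuE ν (L α (Φ' β)) ≤
        nuE ν (Φ' β) + ENNReal.ofReal ω * ν Set.univ * nE ν (Φ' β) := by
      intro β
      unfold nuE
      rw [← lintegral_tsum fun α => (hnm _ (hins.eb _ (hE'.eb β) α)).aemeasurable]
      refine (lintegral_mono fun x => hins.nhi _ (hE'.eb β) x).trans ?_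
      rw [lintegral_add_left (hnm _ (hE'.eb β)), lintegral_const]
      exact le_of_eq (by ring)
    refine (ENNReal.tsum_le_tsum h1).trans ?_
    rw [ENNReal.tsum_add, ENNReal.tsum_mul_left, hE'.norm, mul_one,
      ENNReal.ofReal_add hNhi (mul_nonneg hω.le ENNReal.toReal_nonneg),
      ENNReal.ofReal_mul hω.le, ENNReal.ofReal_toReal (measure_ne_top ν _)]
    gcongr
    exact hE'.nhi
  -- energy
  have hen' : ∑' k : A' × A, en (L k.2 (Φ' k.1)) ≤ ENNReal.ofReal (E + a * Nhi + b) := by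
    rw [ENNReal.tsum_prod (f := fun β α => en (L α (Φ' β)))]
    refine (ENNReal.tsum_le_tsum fun β => hen _ (hE'.eb β)).trans ?_
    rw [ENNReal.tsum_add, ENNReal.tsum_add, ENNReal.tsum_mul_left, ENNReal.tsum_mul_left,
      hE'.norm, mul_one, ENNReal.ofReal_add (by positivity) hb,
      ENNReal.ofReal_add hE (by positivity), ENNReal.ofReal_mul ha]
    gcongr
    · exact hE'.energy
    · exact hE'.nhi
  -- amplitudes
  have hamp : ∀ i, ∑' k : A' × A, dev ν (u i) (c k.2 i) (L k.2 (Φ' k.1)) ≤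
      ENNReal.ofReal (1 / ω + M ^ 2 * ω) := by
    intro i
    rw [ENNReal.tsum_prod (f := fun β α => dev ν (u i) (c α i) (L α (Φ' β)))]
    refine (ENNReal.tsum_le_tsum fun β => hins.amp _ (hE'.eb β) i).trans ?_
    rw [ENNReal.tsum_mul_left, hE'.norm, mul_one]
  have hold' : ∀ i', ∑' k : A' × A, dev ν (u' i') (c' k.1 i') (L k.2 (Φ' k.1)) ≤
      ENNReal.ofReal (R' + ω * M' ^ 2) := by
    intro i'
    rw [ENNReal.tsum_prod (f := fun β α => dev ν (u' i') (c' β i') (L α (Φ' β)))]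
    refine (ENNReal.tsum_le_tsum fun β => hins.old _ (hE'.eb β) (u' i') (c' β i') (hum' i')
      (hu0' i') ⟨1, hu1' i'⟩).trans ?_
    rw [ENNReal.tsum_add, ENNReal.tsum_mul_left, hE'.norm, mul_one, hui',
      ENNReal.ofReal_add hR' (by positivity)]
    gcongr
    exact hE'.amp i'
  refine ⟨A' × A, inferInstance, fun k => L k.2 (Φ' k.1), fun k => c k.2,
    ⟨hEB, hnorm, hnlo, hnhi, hen', hamp, ?_⟩⟩
  -- the differences
  have hper : ∀ k : A' × A, ENNReal.ofReal δ * nuE ν (L k.2 (Φ' k.1)) +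
      ENNReal.ofReal g * ∑ i', df ν (u' i') (L k.2 (Φ' k.1)) ≤
      en (L k.2 (Φ' k.1)) + ENNReal.ofReal e * nE ν (L k.2 (Φ' k.1)) := by
    intro k
    obtain ⟨F, hF⟩ : ∃ F, F = L k.2 (Φ' k.1) := ⟨_, rfl⟩
    have hFE : EB F := hF ▸ hEB k
    rw [← hF]
    have h1 := hdia F hFE
    have h2 := hlow (absv F) (ebc X ν F F hFE hFE).2.1
    rw [nuE_absv, nE_absv] at h2
    have h3 : ∑ i', nE ν (ag ν (u' i') (absv F)) =
        ∑ i', nE ν (ag ν (u' i') F) + ∑ i', df ν (u' i') F := by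
      rw [← Finset.sum_add_distrib]
      exact Finset.sum_congr rfl fun i' _ => df_add F (hu0' i')
    have hZ : ENNReal.ofReal g * ∑ i', nE ν (ag ν (u' i') F) ≠ ⊤ := by
      refine ENNReal.mul_ne_top ENNReal.ofReal_ne_top (ENNReal.sum_ne_top.2 fun i' _ => ?_)
      exact ((slam X ν).2.2.2.2.1 _ (ag_eb hFE (hum' i') (hbd' i'))).ne
    rw [← ENNReal.add_le_add_iff_right hZ]
    calc ENNReal.ofReal δ * nuE ν F + ENNReal.ofReal g * ∑ i', df ν (u' i') F +
          ENNReal.ofReal g * ∑ i', nE ν (ag ν (u' i') F)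
        = ENNReal.ofReal δ * nuE ν F + ENNReal.ofReal g * ∑ i', nE ν (ag ν (u' i') (absv F)) := by
          rw [h3, mul_add]
          ring
      _ ≤ (en (absv F) + ENNReal.ofReal e * nE ν F) +
          ENNReal.ofReal g * ∑ i', nE ν (ag ν (u' i') (absv F)) := by
          gcongr
      _ = (en (absv F) + ENNReal.ofReal g * ∑ i', nE ν (ag ν (u' i') (absv F))) +
          ENNReal.ofReal e * nE ν F := by ring
      _ ≤ (en F + ENNReal.ofReal g * ∑ i', nE ν (ag ν (u' i') F)) +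
          ENNReal.ofReal e * nE ν F := by gcongr
      _ = _ := by ring
  obtain ⟨D, hD⟩ : ∃ D : ℝ≥0∞, D = ∑' k : A' × A, ∑ i', df ν (u' i') (L k.2 (Φ' k.1)) := ⟨_, rfl⟩
  have hDle : ENNReal.ofReal (δ * N) + ENNReal.ofReal g * D ≤
      ENNReal.ofReal (E + a * Nhi + b + e) := by
    have h1 := ENNReal.tsum_le_tsum hper
    rw [ENNReal.tsum_add, ENNReal.tsum_add, ENNReal.tsum_mul_left, ENNReal.tsum_mul_left,
      ENNReal.tsum_mul_left, hnorm, mul_one, ← hD] at h1
    rw [ENNReal.ofReal_add (by positivity) he, ENNReal.ofReal_mul hδ]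
    calc _ ≤ ENNReal.ofReal δ * ∑' k : A' × A, nuE ν (L k.2 (Φ' k.1)) + ENNReal.ofReal g * D := by
          gcongr
      _ ≤ _ := h1
      _ ≤ _ := by gcongr
  have hDle2 : ENNReal.ofReal g * D ≤ ENNReal.ofReal (E + a * Nhi + b + e - δ * N) := by
    rw [ENNReal.ofReal_sub _ (by positivity)]
    refine ENNReal.le_sub_of_add_le_left ENNReal.ofReal_ne_top hDle
  have hDle3 : (Fintype.card I' : ℝ≥0∞) * D ≤
      ENNReal.ofReal (Fintype.card I' * (E + a * Nhi + b + e - δ * N) / g) := by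
    have h1 : (Fintype.card I' : ℝ≥0∞) * D =
        ENNReal.ofReal (Fintype.card I' / g) * (ENNReal.ofReal g * D) := by
      rw [← mul_assoc, ← ENNReal.ofReal_mul (by positivity), div_mul_cancel₀ _ hg.ne',
        ENNReal.ofReal_natCast]
    rw [h1]
    calc _ ≤ ENNReal.ofReal (Fintype.card I' / g) *
          ENNReal.ofReal (E + a * Nhi + b + e - δ * N) := by gcongr
      _ = _ := by
          rw [← ENNReal.ofReal_mul (by positivity)]
          congr 1
          ring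
  -- the four sums
  have hT1 : ∑' k : A' × A, nE ν (L k.2 (Φ' k.1)) * ∑ i', ‖c' k.1 i'‖ₑ ≤ ENNReal.ofReal B' := by
    rw [ENNReal.tsum_prod (f := fun β α => nE ν (L α (Φ' β)) * ∑ i', ‖c' β i'‖ₑ)]
    simp only [ENNReal.tsum_mul_right]
    refine le_trans (le_of_eq ?_) hE'.coh
    exact tsum_congr fun β => by rw [hins.norm _ (hE'.eb β)]
  have hT2 : ∑' k : A' × A, ∑ i', (nE ν (L k.2 (Φ' k.1))) ^ (1 / 2 : ℝ) *
      (dev ν (u' i') (c' k.1 i') (L k.2 (Φ' k.1))) ^ (1 / 2 : ℝ) ≤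
      ENNReal.ofReal (Fintype.card I' * √(R' + ω * M' ^ 2)) := by
    rw [Summable.tsum_finsetSum fun i' _ => ENNReal.summable]
    calc _ ≤ ∑ i' : I', ENNReal.ofReal (√(R' + ω * M' ^ 2)) := by
          refine Finset.sum_le_sum fun i' _ => ?_
          refine (cs_tsum _ _).trans ?_
          rw [hnorm, ENNReal.one_rpow, one_mul, ← ofReal_half]
          gcongr
          exact hold' i'
      _ = _ := by
          rw [Finset.sum_const, nsmul_eq_mul, ENNReal.ofReal_mul (Nat.cast_nonneg _),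
            ENNReal.ofReal_natCast]
          rfl
  have hT4 : ∑' k : A' × A, ∑ i, (nE ν (L k.2 (Φ' k.1))) ^ (1 / 2 : ℝ) *
      (dev ν (u i) (c k.2 i) (L k.2 (Φ' k.1))) ^ (1 / 2 : ℝ) ≤
      ENNReal.ofReal (Fintype.card I * √(1 / ω + M ^ 2 * ω)) := by
    rw [Summable.tsum_finsetSum fun i _ => ENNReal.summable]
    calc _ ≤ ∑ i : I, ENNReal.ofReal (√(1 / ω + M ^ 2 * ω)) := by
          refine Finset.sum_le_sum fun i _ => ?_
          refine (cs_tsum _ _).trans ?_
          rw [hnorm, ENNReal.one_rpow, one_mul, ← ofReal_half]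
          gcongr
          exact hamp i
      _ = _ := by
          rw [Finset.sum_const, nsmul_eq_mul, ENNReal.ofReal_mul (Nat.cast_nonneg _),
            ENNReal.ofReal_natCast]
          rfl
  have hT3 : ∑' k : A' × A, ∑ i', (nE ν (L k.2 (Φ' k.1))) ^ (1 / 2 : ℝ) *
      (df ν (u' i') (L k.2 (Φ' k.1))) ^ (1 / 2 : ℝ) ≤
      ENNReal.ofReal (√(Fintype.card I' * (E + a * Nhi + b + e - δ * N) / g)) := by
    simp only [← tsum_fintype (L := SummationFilter.unconditional _)]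
    rw [← ENNReal.tsum_prod (f := fun (k : A' × A) (i' : I') =>
      (nE ν (L k.2 (Φ' k.1))) ^ (1 / 2 : ℝ) * (df ν (u' i') (L k.2 (Φ' k.1))) ^ (1 / 2 : ℝ))]
    refine (cs_tsum (κ := (A' × A) × I') (fun q => nE ν (L q.1.2 (Φ' q.1.1)))
      (fun q => df ν (u' q.2) (L q.1.2 (Φ' q.1.1)))).trans ?_
    rw [ENNReal.tsum_prod (f := fun (k : A' × A) (i' : I') => nE ν (L k.2 (Φ' k.1))),
      ENNReal.tsum_prod (f := fun (k : A' × A) (i' : I') => df ν (u' i') (L k.2 (Φ' k.1)))]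
    simp only [tsum_fintype, Finset.sum_const, nsmul_eq_mul]
    rw [ENNReal.tsum_mul_left, hnorm, mul_one, ← hD,
      ← ENNReal.mul_rpow_of_nonneg _ _ (by norm_num), ← ofReal_half]
    gcongr
    exact hDle3
  refine (ENNReal.tsum_le_tsum fun k => main_one (ν := ν) (hEB k) hh hs hw hum hu0 hu1 hum' hu1'
    (c k.2) (c' k.1)).trans ?_
  rw [ENNReal.tsum_add, ENNReal.tsum_add, ENNReal.tsum_add]
  rw [ENNReal.ofReal_add (by positivity) (Real.sqrt_nonneg _),
    ENNReal.ofReal_add (by positivity) (by positivity),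
    ENNReal.ofReal_add hB' (by positivity)]
  calc _ ≤ ENNReal.ofReal B' + ENNReal.ofReal (Fintype.card I' * √(R' + ω * M' ^ 2)) +
      ENNReal.ofReal (√(Fintype.card I' * (E + a * Nhi + b + e - δ * N) / g)) +
      ENNReal.ofReal (Fintype.card I * √(1 / ω + M ^ 2 * ω)) := by gcongr
    _ = _ := by ring

end Pool.Agent.W150.CB
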