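import Pool.Agent.W761.CB.Stms
import Pool.Agent.W975.CB.Ms
import Pool.Agent.W366.CB.Lam
import Pool.Agent.W417.CB.Ebc

/-!
# CB-STEP, part 1: estimates for one vector
-/

set_option autoImplicit false
set_option linter.unusedSectionVars false

open MeasureTheory
open scoped ENNReal

namespace Pool.Agent.W150.CB

open Pool.Agent.W761.CB

noncomputable section

theorem slam : S_LAM := Pool.Agent.W366.CB.proof_lam Pool.Agent.W975.CB.proof_ms

theorem ebc : S_EBC := Pool.Agent.W417.CB.proof_ebc Pool.Agent.W975.CB.proof_ms slam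

section

variable {X : Type} [MeasurableSpace X] (ν : Measure X)

/-- the norm -/
def sE (F : Multiset X → ℂ) : ℝ≥0∞ := (nE ν F) ^ (1 / 2 : ℝ)

lemma sE_eq (F : Multiset X → ℂ) : sE ν F = eLpNorm (fun γ => F (ms γ)) 2 (lam ν) := by
  rw [eLpNorm_eq_lintegral_rpow_enorm_toReal (by norm_num) (by norm_num)]
  simp [sE, nE]

lemma half_mul_half (x : ℝ≥0∞) : x ^ (1 / 2 : ℝ) * x ^ (1 / 2 : ℝ) = x := by
  rw [← ENNReal.rpow_add_of_nonneg _ _ (by norm_num) (by norm_num)]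
  norm_num

lemma sE_sq (F : Multiset X → ℂ) : sE ν F * sE ν F = nE ν F := half_mul_half _

variable {ν} [IsFiniteMeasure ν]

lemma fib_meas {F : Multiset X → ℂ} (hF : EB F) (γ : Cf X) :
    Measurable (fun x => F (x ::ₘ ms γ)) :=
  (ebc X (0 : Measure X) F F hF hF).2.2.2.2.1.comp (measurable_id.prodMk measurable_const)

lemma int_fib {F : Multiset X → ℂ} (hF : EB F) {g : X → ℝ} (hg : Measurable g)
    (hb : ∃ C : ℝ, ∀ x, |g x| ≤ C) (γ : Cf X) :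
    Integrable (fun x => g x * ‖F (x ::ₘ ms γ)‖) ν := by
  obtain ⟨C, hC⟩ := hb
  obtain ⟨-, -, -, -, -, -, -, ⟨D, d, hD, hd, h1⟩, -⟩ := ebc X ν F F hF hF
  refine Integrable.of_bound (hg.mul (fib_meas hF γ).norm).aestronglyMeasurable
    (|C| * (D * d ^ Multiset.card (ms γ))) (Filter.Eventually.of_forall fun x => ?_)
  rw [norm_mul, Real.norm_eq_abs, norm_norm]
  exact mul_le_mul ((hC x).trans (le_abs_self C)) (h1 x _) (norm_nonneg _) (abs_nonneg _)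

lemma ag_abs (F : Multiset X → ℂ) (g : X → ℝ) (S : Multiset X) :
    ag ν g (absv F) S = ((∫ x, g x * ‖F (x ::ₘ S)‖ ∂ν : ℝ) : ℂ) := by
  unfold ag absv
  rw [← integral_complex_ofReal]
  refine integral_congr_ae (Filter.Eventually.of_forall fun x => ?_)
  simp

lemma norm_ag_abs (F : Multiset X → ℂ) {g : X → ℝ} (hg : ∀ x, 0 ≤ g x) (S : Multiset X) :
    ‖ag ν g (absv F) S‖ = ∫ x, g x * ‖F (x ::ₘ S)‖ ∂ν := by
  rw [ag_abs, Complex.norm_real, Real.norm_eq_abs, abs_of_nonneg]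
  exact integral_nonneg fun x => mul_nonneg (hg x) (norm_nonneg _)

lemma norm_ag_le (F : Multiset X → ℂ) {g : X → ℝ} (hg : ∀ x, 0 ≤ g x) (S : Multiset X) :
    ‖ag ν g F S‖ ≤ ∫ x, g x * ‖F (x ::ₘ S)‖ ∂ν := by
  unfold ag
  refine (norm_integral_le_integral_norm _).trans_eq ?_
  refine integral_congr_ae (Filter.Eventually.of_forall fun x => ?_)
  simp only [norm_mul, Complex.norm_real, Real.norm_eq_abs, abs_of_nonneg (hg x)]

variable {I : Type} [Fintype I]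

lemma main_pt {F : Multiset X → ℂ} (hF : EB F) {u : I → X → ℝ} {w : X → ℝ} {h : I → ℝ}
    (hh : ∀ i, 0 ≤ h i) (hw : ∀ x, w x = ∑ i, h i * u i x) (hum : ∀ i, Measurable (u i))
    (hu0 : ∀ i x, 0 ≤ u i x) (hu1 : ∀ i x, u i x ≤ 1) (c : I → ℂ) (γ : Cf X) :
    (∑ i, h i * ‖c i‖) * ‖F (ms γ)‖ ≤ ‖ag ν w (absv F) (ms γ)‖ +
      ∑ i, h i * ‖ag ν (u i) F (ms γ) - c i * F (ms γ)‖ := by
  have hw0 : ∀ x, 0 ≤ w x := fun x => by
    rw [hw]
    exact Finset.sum_nonneg fun i _ => mul_nonneg (hh i) (hu0 i x)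
  have h1 : ∀ i, ‖c i‖ * ‖F (ms γ)‖ ≤ (∫ x, u i x * ‖F (x ::ₘ ms γ)‖ ∂ν) +
      ‖ag ν (u i) F (ms γ) - c i * F (ms γ)‖ := by
    intro i
    rw [← norm_mul]
    have h2 : c i * F (ms γ) = ag ν (u i) F (ms γ) -
        (ag ν (u i) F (ms γ) - c i * F (ms γ)) := by ring
    calc ‖c i * F (ms γ)‖ = ‖ag ν (u i) F (ms γ) -
        (ag ν (u i) F (ms γ) - c i * F (ms γ))‖ := by rw [← h2]
      _ ≤ ‖ag ν (u i) F (ms γ)‖ + ‖ag ν (u i) F (ms γ) - c i * F (ms γ)‖ := norm_sub_le _ _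
      _ ≤ _ := by
        gcongr
        exact norm_ag_le F (hu0 i) (ms γ)
  have h3 : ‖ag ν w (absv F) (ms γ)‖ = ∑ i, h i * ∫ x, u i x * ‖F (x ::ₘ ms γ)‖ ∂ν := by
    rw [norm_ag_abs F hw0]
    have h4 : ∀ i, Integrable (fun x => u i x * ‖F (x ::ₘ ms γ)‖) ν := fun i =>
      int_fib hF (hum i) ⟨1, fun x => by rw [abs_of_nonneg (hu0 i x)]; exact hu1 i x⟩ γ
    simp only [← integral_const_mul]
    rw [← integral_finsetSum]
    · refine integral_congr_ae (Filter.Eventually.of_forall fun x => ?_)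
      simp only
      rw [hw, Finset.sum_mul]
      exact Finset.sum_congr rfl fun i _ => by ring
    · exact fun i _ => (h4 i).const_mul _
  rw [h3, ← Finset.sum_add_distrib, Finset.sum_mul]
  refine Finset.sum_le_sum fun i _ => ?_
  calc h i * ‖c i‖ * ‖F (ms γ)‖ = h i * (‖c i‖ * ‖F (ms γ)‖) := by ring
    _ ≤ h i * ((∫ x, u i x * ‖F (x ::ₘ ms γ)‖ ∂ν) +
      ‖ag ν (u i) F (ms γ) - c i * F (ms γ)‖) := mul_le_mul_of_nonneg_left (h1 i) (hh i)
    _ = _ := by ring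

lemma ag_eb {F : Multiset X → ℂ} (hF : EB F) {g : X → ℝ} (hg : Measurable g)
    (hb : ∃ C : ℝ, ∀ x, |g x| ≤ C) : EB (ag ν g F) :=
  (ebc X ν F F hF hF).2.2.2.1 g hg hb

lemma dev_eb {F : Multiset X → ℂ} (hF : EB F) {g : X → ℝ} (hg : Measurable g)
    (hb : ∃ C : ℝ, ∀ x, |g x| ≤ C) (z : ℂ) : EB (fun S => ag ν g F S - z * F S) := by
  have h1 := (ebc X ν (ag ν g F) F (ag_eb hF hg hb) hF).2.2.1 1 (-z)
  convert h1 using 2 with S
  ring

lemma main_L2 {F : Multiset X → ℂ} (hF : EB F) {u : I → X → ℝ} {w : X → ℝ} {h : I → ℝ}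
    (hh : ∀ i, 0 ≤ h i) (hw : ∀ x, w x = ∑ i, h i * u i x) (hum : ∀ i, Measurable (u i))
    (hu0 : ∀ i x, 0 ≤ u i x) (hu1 : ∀ i x, u i x ≤ 1) (hwm : Measurable w)
    (hw1 : ∀ x, w x ≤ 1) (c : I → ℂ) :
    ENNReal.ofReal (∑ i, h i * ‖c i‖) * sE ν F ≤ sE ν (ag ν w (absv F)) +
      ∑ i, ENNReal.ofReal (h i) * (dev ν (u i) (c i) F) ^ (1 / 2 : ℝ) := by
  have hw0 : ∀ x, 0 ≤ w x := fun x => by
    rw [hw]
    exact Finset.sum_nonneg fun i _ => mul_nonneg (hh i) (hu0 i x)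
  have habs : EB (absv F) := (ebc X ν F F hF hF).2.1
  have hm0 : AEStronglyMeasurable (fun γ => ‖ag ν w (absv F) (ms γ)‖) (lam ν) :=
    (ag_eb (ν := ν) habs hwm ⟨1, fun x => by
      rw [abs_of_nonneg (hw0 x)]; exact hw1 x⟩).meas.norm.aestronglyMeasurable
  have hmi : ∀ i, AEStronglyMeasurable
      (fun γ => h i * ‖ag ν (u i) F (ms γ) - c i * F (ms γ)‖) (lam ν) := fun i =>
    ((dev_eb (ν := ν) hF (hum i) ⟨1, fun x => by
      rw [abs_of_nonneg (hu0 i x)]; exact hu1 i x⟩ (c i)).meas.norm.const_mul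
        (h i)).aestronglyMeasurable
  have hC0 : 0 ≤ ∑ i, h i * ‖c i‖ :=
    Finset.sum_nonneg fun i _ => mul_nonneg (hh i) (norm_nonneg _)
  have e0 : ENNReal.ofReal (∑ i, h i * ‖c i‖) * sE ν F =
      eLpNorm (fun γ => (∑ i, h i * ‖c i‖) * ‖F (ms γ)‖) 2 (lam ν) := by
    have h1 : (fun γ => (∑ i, h i * ‖c i‖) * ‖F (ms γ)‖) =
        (∑ i, h i * ‖c i‖) • fun γ : Cf X => ‖F (ms γ)‖ := rfl
    rw [h1, eLpNorm_const_smul, sE_eq, Real.enorm_of_nonneg hC0, eLpNorm_norm]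
  have e1 : ∀ i, eLpNorm (fun γ => h i * ‖ag ν (u i) F (ms γ) - c i * F (ms γ)‖) 2 (lam ν) =
      ENNReal.ofReal (h i) * (dev ν (u i) (c i) F) ^ (1 / 2 : ℝ) := by
    intro i
    have h1 : (fun γ => h i * ‖ag ν (u i) F (ms γ) - c i * F (ms γ)‖) =
        (h i) • fun γ : Cf X => ‖ag ν (u i) F (ms γ) - c i * F (ms γ)‖ := rfl
    rw [h1, eLpNorm_const_smul, Real.enorm_of_nonneg (hh i), eLpNorm_norm]
    congr 1
    exact (sE_eq ν (fun S => ag ν (u i) F S - c i * F S)).symm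
  have e2 : eLpNorm (fun γ => ‖ag ν w (absv F) (ms γ)‖) 2 (lam ν) = sE ν (ag ν w (absv F)) := by
    rw [eLpNorm_norm, sE_eq]
  rw [e0, ← e2]
  simp only [← e1]
  calc eLpNorm (fun γ => (∑ i, h i * ‖c i‖) * ‖F (ms γ)‖) 2 (lam ν)
      ≤ eLpNorm ((fun γ => ‖ag ν w (absv F) (ms γ)‖) + ∑ i, fun γ : Cf X =>
          h i * ‖ag ν (u i) F (ms γ) - c i * F (ms γ)‖) 2 (lam ν) := by
        refine eLpNorm_mono_real fun γ => ?_
        rw [norm_mul, Real.norm_of_nonneg hC0, norm_norm]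
        have := main_pt (ν := ν) hF hh hw hum hu0 hu1 c γ
        simpa only [Pi.add_apply, Finset.sum_apply] using this
    _ ≤ eLpNorm (fun γ => ‖ag ν w (absv F) (ms γ)‖) 2 (lam ν) + eLpNorm (∑ i, fun γ : Cf X =>
          h i * ‖ag ν (u i) F (ms γ) - c i * F (ms γ)‖) 2 (lam ν) :=
        eLpNorm_add_le hm0 (Finset.aestronglyMeasurable_sum _ fun i _ => hmi i) (by norm_num)
    _ ≤ _ := by
        gcongr
        exact eLpNorm_sum_le (fun i _ => hmi i) (by norm_num)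

lemma sE_ag_le {F : Multiset X → ℂ} (hF : EB F) {w : X → ℝ} (hwm : Measurable w)
    (hb : ∃ C : ℝ, ∀ x, |w x| ≤ C) (z : ℂ) :
    sE ν (ag ν w F) ≤ ‖z‖ₑ * sE ν F + (dev ν w z F) ^ (1 / 2 : ℝ) := by
  have e1 : (dev ν w z F) ^ (1 / 2 : ℝ) =
      eLpNorm (fun γ => ag ν w F (ms γ) - z * F (ms γ)) 2 (lam ν) :=
    sE_eq ν (fun S => ag ν w F S - z * F S)
  have e2 : ‖z‖ₑ * sE ν F = eLpNorm (fun γ => z * F (ms γ)) 2 (lam ν) := by
    have h1 : (fun γ => z * F (ms γ)) = z • fun γ : Cf X => F (ms γ) := rfl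
    rw [h1, eLpNorm_const_smul, sE_eq]
  rw [e1, e2, sE_eq]
  have h1 : (fun γ => ag ν w F (ms γ)) = (fun γ : Cf X => z * F (ms γ)) +
      fun γ => ag ν w F (ms γ) - z * F (ms γ) := by
    funext γ
    simp
  conv_lhs => rw [h1]
  exact eLpNorm_add_le (hF.meas.const_mul z).aestronglyMeasurable
    (dev_eb (ν := ν) hF hwm hb z).meas.aestronglyMeasurable (by norm_num)

lemma nE_absv (F : Multiset X → ℂ) : nE ν (absv F) = nE ν F := by
  unfold nE absv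
  refine lintegral_congr fun γ => ?_
  rw [← ofReal_norm, ← ofReal_norm, Complex.norm_real, norm_norm]

lemma nuE_absv (F : Multiset X → ℂ) : nuE ν (absv F) = nuE ν F := by
  unfold nuE
  refine lintegral_congr fun x => ?_
  exact nE_absv (an x F)

lemma nE_ag_le (F : Multiset X → ℂ) {w : X → ℝ} (hw : ∀ x, 0 ≤ w x) :
    nE ν (ag ν w F) ≤ nE ν (ag ν w (absv F)) := by
  unfold nE
  refine lintegral_mono fun γ => ?_
  rw [← ofReal_norm, ← ofReal_norm]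
  gcongr
  rw [norm_ag_abs F hw]
  exact norm_ag_le F hw (ms γ)

/-- the difference between the amplitudes of the absolute value and of the vector -/
def df (ν : Measure X) (w : X → ℝ) (F : Multiset X → ℂ) : ℝ≥0∞ :=
  nE ν (ag ν w (absv F)) - nE ν (ag ν w F)

lemma df_add (F : Multiset X → ℂ) {w : X → ℝ} (hw : ∀ x, 0 ≤ w x) :
    nE ν (ag ν w (absv F)) = nE ν (ag ν w F) + df ν w F := by
  unfold df
  exact (add_tsub_cancel_of_le (nE_ag_le F hw)).symm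

lemma sE_absv_le (F : Multiset X → ℂ) {w : X → ℝ} (hw : ∀ x, 0 ≤ w x) :
    sE ν (ag ν w (absv F)) ≤ sE ν (ag ν w F) + (df ν w F) ^ (1 / 2 : ℝ) := by
  unfold sE
  rw [df_add F hw]
  exact ENNReal.rpow_add_le_add_rpow _ _ (by norm_num) (by norm_num)

/-- the inequality for one vector of the ensemble -/
lemma main_one {I' : Type} [Fintype I'] {F : Multiset X → ℂ} (hF : EB F) {u : I → X → ℝ}
    {u' : I' → X → ℝ} {h : I' → I → ℝ}
    (hh : ∀ i' i, 0 ≤ h i' i) (hs : ∀ i, ∑ i', h i' i = 1)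
    (hw : ∀ i' x, u' i' x = ∑ i, h i' i * u i x) (hum : ∀ i, Measurable (u i))
    (hu0 : ∀ i x, 0 ≤ u i x) (hu1 : ∀ i x, u i x ≤ 1) (hwm : ∀ i', Measurable (u' i'))
    (hw1 : ∀ i' x, u' i' x ≤ 1) (c : I → ℂ) (c' : I' → ℂ) :
    nE ν F * ∑ i, ‖c i‖ₑ ≤ nE ν F * (∑ i', ‖c' i'‖ₑ) +
      (∑ i', (nE ν F) ^ (1 / 2 : ℝ) * (dev ν (u' i') (c' i') F) ^ (1 / 2 : ℝ)) +
      (∑ i', (nE ν F) ^ (1 / 2 : ℝ) * (df ν (u' i') F) ^ (1 / 2 : ℝ)) +
      ∑ i, (nE ν F) ^ (1 / 2 : ℝ) * (dev ν (u i) (c i) F) ^ (1 / 2 : ℝ) := by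
  have hw0 : ∀ i' x, 0 ≤ u' i' x := fun i' x => by
    rw [hw]
    exact Finset.sum_nonneg fun i _ => mul_nonneg (hh i' i) (hu0 i x)
  have e1 : ∑ i, ‖c i‖ₑ = ∑ i', ENNReal.ofReal (∑ i, h i' i * ‖c i‖) := by
    rw [← ENNReal.ofReal_sum_of_nonneg (fun i' _ => Finset.sum_nonneg fun i _ =>
      mul_nonneg (hh i' i) (norm_nonneg _)), Finset.sum_comm]
    simp only [← Finset.sum_mul, hs, one_mul]
    rw [ENNReal.ofReal_sum_of_nonneg (fun i _ => norm_nonneg _)]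
    exact Finset.sum_congr rfl fun i _ => (ofReal_norm _).symm
  have key : ∀ i', ENNReal.ofReal (∑ i, h i' i * ‖c i‖) * sE ν F ≤
      ‖c' i'‖ₑ * sE ν F + (dev ν (u' i') (c' i') F) ^ (1 / 2 : ℝ) +
      (df ν (u' i') F) ^ (1 / 2 : ℝ) +
      ∑ i, ENNReal.ofReal (h i' i) * (dev ν (u i) (c i) F) ^ (1 / 2 : ℝ) := by
    intro i'
    refine (main_L2 (ν := ν) hF (hh i') (hw i') hum hu0 hu1 (hwm i') (hw1 i') c).trans ?_
    gcongr
    refine (sE_absv_le F (hw0 i')).trans ?_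
    gcongr
    exact sE_ag_le hF (hwm i') ⟨1, fun x => by rw [abs_of_nonneg (hw0 i' x)]; exact hw1 i' x⟩ _
  have e2 : ∀ i, ∑ i', ENNReal.ofReal (h i' i) = 1 := by
    intro i
    rw [← ENNReal.ofReal_sum_of_nonneg (fun i' _ => hh i' i), hs, ENNReal.ofReal_one]
  have e3 : nE ν F = sE ν F * sE ν F := (sE_sq ν F).symm
  have e4 : (nE ν F) ^ (1 / 2 : ℝ) = sE ν F := rfl
  rw [e4, e3, e1, mul_assoc, Finset.mul_sum, Finset.mul_sum]
  calc ∑ i', sE ν F * (sE ν F * ENNReal.ofReal (∑ i, h i' i * ‖c i‖))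
      ≤ ∑ i', sE ν F * (‖c' i'‖ₑ * sE ν F + (dev ν (u' i') (c' i') F) ^ (1 / 2 : ℝ) +
      (df ν (u' i') F) ^ (1 / 2 : ℝ) +
      ∑ i, ENNReal.ofReal (h i' i) * (dev ν (u i) (c i) F) ^ (1 / 2 : ℝ)) := by
        refine Finset.sum_le_sum fun i' _ => ?_
        gcongr
        rw [mul_comm]
        exact key i'
    _ = _ := by
        simp only [mul_add, Finset.sum_add_distrib]
        congr 1
        · congr 1
          congr 1
          rw [mul_assoc, Finset.mul_sum, Finset.mul_sum]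
          exact Finset.sum_congr rfl fun i' _ => by ring
        · simp only [Finset.mul_sum]
          rw [Finset.sum_comm]
          refine Finset.sum_congr rfl fun i _ => ?_
          rw [← Finset.mul_sum, ← Finset.sum_mul, e2, one_mul]

end

/-- Cauchy-Schwarz for sums -/
lemma cs_tsum {κ : Type} (f g : κ → ℝ≥0∞) :
    ∑' k, (f k) ^ (1 / 2 : ℝ) * (g k) ^ (1 / 2 : ℝ) ≤
      (∑' k, f k) ^ (1 / 2 : ℝ) * (∑' k, g k) ^ (1 / 2 : ℝ) := by
  rw [ENNReal.tsum_eq_iSup_sum]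
  refine iSup_le fun s => ?_
  have h1 := ENNReal.inner_le_Lp_mul_Lq s (fun k => (f k) ^ (1 / 2 : ℝ))
    (fun k => (g k) ^ (1 / 2 : ℝ)) (p := 2) (q := 2) (by constructor <;> norm_num)
  have h2 : ∀ x : ℝ≥0∞, (x ^ (1 / 2 : ℝ)) ^ (2 : ℝ) = x := by
    intro x
    rw [← ENNReal.rpow_mul]
    norm_num
  simp only [h2] at h1
  refine h1.trans ?_
  gcongr
  · exact ENNReal.sum_le_tsum s
  · exact ENNReal.sum_le_tsum s

lemma ofReal_half (z : ℝ) : (ENNReal.ofReal z) ^ (1 / 2 : ℝ) = ENNReal.ofReal (√z) := by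
  rcases le_or_gt 0 z with h | h
  · rw [ENNReal.ofReal_rpow_of_nonneg h (by norm_num), Real.sqrt_eq_rpow]
  · rw [ENNReal.ofReal_of_nonpos h.le, Real.sqrt_eq_zero_of_nonpos h.le, ENNReal.ofReal_zero,
      ENNReal.zero_rpow_of_pos (by norm_num)]

end

end Pool.Agent.W150.CB
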